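import Pool.Agent.Y920.QB.Lin

/-! Spanning functionals (helper50, project QB of helper920). -/

set_option autoImplicit false

namespace Pool.Agent.Y50.QB

open Module Pool.Agent.Y920.QB

section

variable {V K : Type} [AddCommGroup V] [Module (ZMod 2) V] [Finite V]
  [AddCommGroup K] [Module (ZMod 2) K] [Finite K] {U : Submodule (ZMod 2) V}

/-- over a proper ample subspace there is the kernel of a coat functional -/
theorem coat_above (hC : P_COAT) {β : U →ₗ[ZMod 2] V →ₗ[ZMod 2] K} {t T : ℕ} (hL : Lin β)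
    (hS : Std β t T) {A : Submodule (ZMod 2) K} (hA : Amp β t A) (hA1 : A ≠ ⊤) :
    ∃ κ : Module.Dual (ZMod 2) K, κ ≠ 0 ∧ Coat β t (LinearMap.ker κ) ∧ A ≤ LinearMap.ker κ := by
  obtain ⟨m, hm1, hm2⟩ := Set.Finite.exists_le_maximal
    (s := {A : Submodule (ZMod 2) K | Amp β t A ∧ A ≠ ⊤}) (Set.toFinite _) (a := A) ⟨hA, hA1⟩
  have hco : Coat β t m := by
    refine ⟨hm2.prop.1, hm2.prop.2, ?_⟩
    intro A' h1 h2 h3
    exact le_antisymm (hm2.le_of_ge ⟨h1, h3⟩ h2) h2
  obtain ⟨κ, hκ, rfl⟩ := hC V K U β t T hL hS m hco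
  exact ⟨κ, hκ, hco, hm1⟩

theorem add_self_dual (κ : Module.Dual (ZMod 2) K) : κ + κ = 0 := by
  ext x
  rw [LinearMap.add_apply, LinearMap.zero_apply]
  exact CharTwo.add_self_eq_zero _

end

theorem t_SPAN : S_SPAN := by
  intro hA hC hD V K _ _ _ _ _ _ U β t T hL hS
  have hamp : ∀ a : Module.Dual (ZMod 2) K, Amp β t (SS β t (LinearMap.ker a)) ∧
      SS β t (LinearMap.ker a) ≤ LinearMap.ker a := by
    intro a
    obtain ⟨-, h⟩ := hA V K U β t
    exact ⟨(h _).1, (h _).2.1⟩
  have hker : ∀ a : Module.Dual (ZMod 2) K, a ≠ 0 → SS β t (LinearMap.ker a) ≠ ⊤ := by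
    intro a ha h
    apply ha
    have h1 := (hamp a).2
    rw [h, top_le_iff] at h1
    exact LinearMap.ker_eq_top.mp h1
  have hback : ∀ a κ : Module.Dual (ZMod 2) K, a + κ + κ = a := by
    intro a κ
    rw [add_assoc, add_self_dual, add_zero]
  have hspan : ∀ (n : ℕ) (a : Module.Dual (ZMod 2) K),
      finrank (ZMod 2) K ≤ finrank (ZMod 2) (SS β t (LinearMap.ker a)) + n →
      a ∈ Submodule.span (ZMod 2)
        {κ : Module.Dual (ZMod 2) K | κ ≠ 0 ∧ Coat β t (LinearMap.ker κ)} := by
    intro n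
    induction n with
    | zero =>
      intro a ha
      by_cases h0 : a = 0
      · rw [h0]; exact Submodule.zero_mem _
      · exfalso
        apply hker a h0
        apply Submodule.eq_top_of_finrank_eq
        exact le_antisymm (Submodule.finrank_le _) (by simpa using ha)
    | succ n ih =>
      intro a ha
      by_cases h0 : a = 0
      · rw [h0]; exact Submodule.zero_mem _
      · obtain ⟨κ, hκ, hco, hle⟩ := coat_above hC hL hS (hamp a).1 (hker a h0)
        obtain ⟨d1, d2⟩ := hD V K U β t T hL hS κ hκ hco (a + κ)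
        rw [hback] at d1 d2
        have h1 : ¬ SS β t (LinearMap.ker (a + κ)) ≤ LinearMap.ker κ := fun h => d1 ⟨h, hle⟩
        have h2 := (d2 h1).trans inf_le_right
        have h3 : SS β t (LinearMap.ker a) < SS β t (LinearMap.ker (a + κ)) := by
          refine lt_of_le_of_ne h2 ?_
          intro h
          rw [← h] at h1
          exact h1 hle
        have h4 := Submodule.finrank_lt_finrank_of_lt h3
        have h5 := ih (a + κ) (by omega)
        have h6 : κ ∈ Submodule.span (ZMod 2)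
            {κ : Module.Dual (ZMod 2) K | κ ≠ 0 ∧ Coat β t (LinearMap.ker κ)} :=
          Submodule.subset_span ⟨hκ, hco⟩
        have h7 := Submodule.add_mem _ h5 h6
        rw [hback] at h7
        exact h7
  have htop : Submodule.span (ZMod 2)
      {κ : Module.Dual (ZMod 2) K | κ ≠ 0 ∧ Coat β t (LinearMap.ker κ)} = ⊤ := by
    rw [eq_top_iff]
    intro a _
    exact hspan (finrank (ZMod 2) K) a (Nat.le_add_left _ _)
  refine ⟨htop, ?_⟩
  intro hr
  have hnt : Nontrivial K := Module.nontrivial_of_finrank_pos hr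
  obtain ⟨x0, hx0⟩ := exists_ne (0 : K)
  have hex : ∃ n : ℕ, ∃ a : Module.Dual (ZMod 2) K, a ≠ 0 ∧
      finrank (ZMod 2) (SS β t (LinearMap.ker a)) = n := by
    have : ∃ a : Module.Dual (ZMod 2) K, a x0 ≠ 0 := by
      by_contra hcon
      push Not at hcon
      exact hx0 ((Module.forall_dual_apply_eq_zero_iff (ZMod 2) x0).mp hcon)
    obtain ⟨a, ha⟩ := this
    exact ⟨_, a, fun h => ha (by rw [h, LinearMap.zero_apply]), rfl⟩
  classical
  obtain ⟨a, ha0, han⟩ := Nat.find_spec hex
  have hmin : ∀ b : Module.Dual (ZMod 2) K, b ≠ 0 →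
      finrank (ZMod 2) (SS β t (LinearMap.ker a)) ≤ finrank (ZMod 2) (SS β t (LinearMap.ker b)) := by
    intro b hb
    rw [han]
    exact Nat.find_min' hex ⟨b, hb, rfl⟩
  refine ⟨a, ha0, ?_⟩
  by_contra hne
  obtain ⟨x, hx, hx1⟩ := (Submodule.ne_bot_iff _).mp hne
  have hκ : ∃ κ : Module.Dual (ZMod 2) K, (κ ≠ 0 ∧ Coat β t (LinearMap.ker κ)) ∧ κ x ≠ 0 := by
    by_contra hcon
    push Not at hcon
    apply hx1
    rw [← Module.forall_dual_apply_eq_zero_iff (ZMod 2) x]
    intro f
    have hf : f ∈ Submodule.span (ZMod 2)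
        {κ : Module.Dual (ZMod 2) K | κ ≠ 0 ∧ Coat β t (LinearMap.ker κ)} := by
      rw [htop]; exact Submodule.mem_top
    induction hf using Submodule.span_induction with
    | mem κ h => exact hcon κ h
    | zero => rfl
    | add f g _ _ h1 h2 => rw [LinearMap.add_apply, h1, h2, add_zero]
    | smul c f _ h1 => rw [LinearMap.smul_apply, h1, smul_zero]
  obtain ⟨κ, ⟨hκ0, hco⟩, hκx⟩ := hκ
  have h1 : ¬ SS β t (LinearMap.ker a) ≤ LinearMap.ker κ := fun h => hκx (h hx)
  have h2 := (hD V K U β t T hL hS κ hκ0 hco a).2 h1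
  have h3 : SS β t (LinearMap.ker (a + κ)) < SS β t (LinearMap.ker a) := by
    refine lt_of_le_of_ne (h2.trans inf_le_right) ?_
    intro h
    apply h1
    rw [← h]
    exact h2.trans inf_le_left
  have h4 := Submodule.finrank_lt_finrank_of_lt h3
  have h5 : a + κ ≠ 0 := by
    intro h
    apply h1
    have h6 : a = κ := by
      have := hback a κ
      rw [h, zero_add] at this
      exact this.symm
    rw [← h6]
    exact (hamp a).2
  have := hmin _ h5
  omega

end Pool.Agent.Y50.QB
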